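import Pool.Agent.Helper33.FN.Cross
import Pool.Agent.Helper79.G.Gap

/-!
# MP_e98778_an (full), G3: the crossing lemma in helper79's form
-/

set_option autoImplicit false

open Pool.Agent.Helper87.LS Pool.Agent.Helper79.G

namespace Pool.Agent.Helper33.FN

variable {H : Type} {T : Tri H} {v : ℂ}

theorem crs_smul {c : ℝ} (hc : 0 < c) {s : H × ℂ} : T.Crs (c * v) s ↔ T.Crs v s := by
  unfold Tri.Crs
  rw [cr_mul_left, cr_mul_left]
  constructor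
  · rintro ⟨h1, h2⟩
    exact ⟨pos_of_mul hc h1, by
      have := pos_of_mul hc (b := -cr v (s.2 + T.vec s.1)) (by linarith)
      linarith⟩
  · rintro ⟨h1, h2⟩
    exact ⟨mul_pos hc h1, mul_neg_of_pos_of_neg hc h2⟩

theorem tin_smul {c : ℝ} (hc : 0 < c) (s : H × ℂ) : T.tin (c * v) s = T.tin v s / c := by
  unfold Tri.tin
  rw [cr_mul_left, div_div, mul_comm c]

theorem AP_of_runs' {c : ℝ} (hc : 0 < c) {s1 t : H × ℂ} (h1 : T.Crs v s1) (h : T.Runs v s1 t) :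
    T.Crs v t ∧ ∃ ls, AP (Rel T (c * v)) s1 ls t := by
  have hstep : ∀ t t', (T.Crs v t ∧ ∃ ls, AP (Rel T (c * v)) s1 ls t) → Rel T (c * v) t t' →
      (T.Crs v t' ∧ ∃ ls, AP (Rel T (c * v)) s1 ls t') := by
    rintro t t' ⟨_, ls, hls⟩ h4
    exact ⟨(crs_smul hc).1 h4.crs, ls ++ [t], AP.cons hls h4⟩
  induction h with
  | refl => exact ⟨h1, [], AP.nil⟩
  | up h2 h3 ih =>
    refine hstep _ _ ih ⟨(crs_smul hc).2 ih.1, Or.inl ⟨?_, rfl⟩⟩
    rw [cr_mul_left]; exact mul_pos hc h3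
  | dn h2 h3 ih =>
    refine hstep _ _ ih ⟨(crs_smul hc).2 ih.1, Or.inr ⟨?_, rfl⟩⟩
    rw [cr_mul_left]; exact mul_neg_of_pos_of_neg hc h3

theorem tin_lt {s s' : H × ℂ} (h : Rel T v s s') : T.tin v s < T.tin v s' := by
  have hcrt : 0 < w 1 v (hi s) ∧ w 1 v (lo T s) < 0 := by
    have := h.1
    rw [Crs_iff] at this
    unfold w; constructor <;> linarith [this.1, this.2]
  have h4 := tau_lt (rules_lo (T := T) (v := v)) hcrt h
  rwa [tau_lo, tau_lo] at h4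

theorem crossing_all {E : Set H} {l L : ℝ} (hE : ∀ g, g ∈ E → T.opp g ∈ E)
    (hL : 20 * l ≤ L) (hgap : Gap T E L) (hshort : ∀ g ∈ E, ‖T.vec g‖ ≤ l)
    {g : H} {P : ℂ} (hg : g ∈ E) (hn : T.next g ∉ E) (hp : T.prev g ∉ E) (hc : T.Crs v (g, P))
    (h0 : ∃ t : ℝ, 0 < t ∧ t < 1 ∧ P + t * T.vec g = 0) {s1 : H × ℂ} (hs1 : Rel T v (g, P) s1) :
    ∀ s, T.Runs v s1 s → T.tin v s * ‖v‖ ≤ L / 4 →
      s.1 ∉ E ∧ ∀ t : ℝ, T.apex s = t * v → L / 4 < t * ‖v‖ := by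
  intro s hs hts
  have hl0 : 0 < l := (norm_pos_iff.2 (T.vec_ne_zero g)).trans_le (hshort g hg)
  have hL0 : 0 < L := by linarith
  have hv : v ≠ 0 := by
    rintro rfl
    have := hc.1
    simp [cr] at this
  have hvn : 0 < ‖v‖ := norm_pos_iff.2 hv
  set c : ℝ := L / (4 * ‖v‖) with hcdef
  have hc0 : 0 < c := by positivity
  have hcv : ‖(c : ℂ) * v‖ = L / 4 := by
    rw [norm_mul, Complex.norm_real, Real.norm_of_nonneg hc0.le, hcdef]
    field_simp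
  have hG : GapAt T E l L := ⟨hE, hshort, hgap⟩
  have hcz : cr P (T.vec g) = 0 := by
    obtain ⟨t, _, _, ht⟩ := h0
    have : P = ((-t : ℝ) : ℂ) * T.vec g := by push_cast; linear_combination ht
    rw [this, cr_mul_left, cr_self, mul_zero]
  have hrel : Rel T (c * v) (g, P) s1 := by
    refine ⟨(crs_smul hc0).2 hc, ?_⟩
    rw [cr_mul_left]
    rcases hs1.2 with ⟨h1, h2⟩ | ⟨h1, h2⟩
    · exact Or.inl ⟨mul_pos hc0 h1, h2⟩
    · exact Or.inr ⟨mul_neg_of_pos_of_neg hc0 h1, h2⟩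
  obtain ⟨_, ls, hls⟩ := AP_of_runs' hc0 hs1.crs hs
  have htin : T.tin (c * v) s ≤ 1 := by
    rw [tin_smul hc0, div_le_one hc0, hcdef, le_div_iff₀ (by positivity)]
    linarith
  have key := hG.path_all (v := c * v) (s := (g, P)) ((crs_smul hc0).2 hc) hcz hg hn hp
    (by rw [hcv]; linarith) hrel hls htin
  refine ⟨key.1 s (by simp), fun t ht => ?_⟩
  by_contra hcon
  push Not at hcon
  refine key.2 (t / c) ?_ ?_
  · rw [div_le_one hc0, hcdef, le_div_iff₀ (by positivity)]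
    linarith
  · rw [ht]
    push_cast
    have : (c : ℂ) ≠ 0 := by exact_mod_cast hc0.ne'
    field_simp

/-- TF-G3-DN in helper79's form. -/
theorem crossing_dn {E : Set H} {l L : ℝ} (hE : ∀ g, g ∈ E → T.opp g ∈ E)
    (hL : 20 * l ≤ L) (hgap : Gap T E L) (hshort : ∀ g ∈ E, ‖T.vec g‖ ≤ l)
    {g : H} {P : ℂ} (hg : g ∈ E) (hn : T.next g ∉ E) (hp : T.prev g ∉ E) (hc : T.Crs v (g, P))
    (h0 : ∃ t : ℝ, 0 < t ∧ t < 1 ∧ P + t * T.vec g = 0) (ha : cr v (T.apex (g, P)) < 0) :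
    ∀ s, T.Runs v (T.dn (g, P)) s → T.tin v s * ‖v‖ ≤ L / 4 →
      s.1 ∉ E ∧ ∀ t : ℝ, T.apex s = t * v → L / 4 < t * ‖v‖ :=
  crossing_all hE hL hgap hshort hg hn hp hc h0 ⟨hc, Or.inr ⟨ha, rfl⟩⟩

end Pool.Agent.Helper33.FN
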