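import Pool.Agent.Helper33.FN.Funnel
import Pool.Agent.Helper60.G1.Insert

/-!
# MP_e98778_an (full), G3: the crossing lemma
-/

set_option autoImplicit false

open Pool.Agent.Helper87.LS Pool.Agent.Helper79.G

namespace Pool.Agent.Helper33.FN

variable {H : Type} (T : Tri H) (v : ℂ)

/-- one step of the run in the direction `v` -/
def Rel (x y : H × ℂ) : Prop :=
  T.Crs v x ∧ ((0 < cr v (T.apex x) ∧ y = T.up x) ∨ (cr v (T.apex x) < 0 ∧ y = T.dn x))

/-- lower end, upper end -/
def lo (x : H × ℂ) : ℂ := x.2 + T.vec x.1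
def hi (x : H × ℂ) : ℂ := x.2

variable {T v}

theorem apex_eq (x : H × ℂ) : T.apex x = x.2 - T.vec (T.prev x.1) := by
  unfold Tri.apex
  have := T.closed x.1
  have h2 : T.prev x.1 = T.next (T.next x.1) := rfl
  rw [h2]
  linear_combination this

theorem hi_up (x : H × ℂ) : hi (T.up x) = T.apex x := rfl
theorem lo_up (x : H × ℂ) : lo T (T.up x) = lo T x := by
  unfold lo Tri.up Tri.apex
  simp only [T.vec_opp]; ring
theorem hi_dn (x : H × ℂ) : hi (T.dn x) = hi x := rfl
theorem lo_dn (x : H × ℂ) : lo T (T.dn x) = T.apex x := by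
  rw [apex_eq]
  unfold lo Tri.dn
  simp only [T.vec_opp]; ring

theorem Crs_iff (x : H × ℂ) : T.Crs v x ↔ 0 < cr v (hi x) ∧ cr v (lo T x) < 0 := Iff.rfl

theorem Rel.crs {x y : H × ℂ} (h : Rel T v x y) : T.Crs v y := by
  rw [Crs_iff]
  obtain ⟨h1, ⟨h2, rfl⟩ | ⟨h2, rfl⟩⟩ := h
  · rw [hi_up, lo_up]; exact ⟨h2, h1.2⟩
  · rw [hi_dn, lo_dn]; exact ⟨h1.1, h2⟩

/-- rules with the lower ends as near ends -/
theorem rules_lo : Rules 1 v (lo T) hi T.apex (Rel T v) := by
  refine ⟨?_, ?_, ?_⟩
  · intro x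
    have := T.pos x.1
    have e : w 1 (lo T x - hi x) (T.apex x - hi x) = cr (T.vec x.1) (T.vec (T.next x.1)) := by
      unfold w lo hi Tri.apex
      simp only [cr, Complex.sub_re, Complex.sub_im, Complex.add_re, Complex.add_im]; ring
    rw [e]; exact this
  · rintro x y ⟨h1, ⟨h2, rfl⟩ | ⟨h2, rfl⟩⟩
    · right; exact ⟨lo_up x, hi_up x⟩
    · left; exact ⟨hi_dn x, lo_dn x⟩
  · intro x y h
    have := h.crs
    rw [Crs_iff] at this
    exact ⟨by unfold w; linarith [this.1], by unfold w; linarith [this.2]⟩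

/-- rules with the upper ends as near ends -/
theorem rules_hi : Rules (-1) v hi (lo T) T.apex (Rel T v) := by
  refine ⟨?_, ?_, ?_⟩
  · intro x
    have := T.pos x.1
    have e : w (-1) (hi x - lo T x) (T.apex x - lo T x) = cr (T.vec x.1) (T.vec (T.next x.1)) := by
      unfold w lo hi Tri.apex
      simp only [cr, Complex.sub_re, Complex.sub_im, Complex.add_re, Complex.add_im]; ring
    rw [e]; exact this
  · rintro x y ⟨h1, ⟨h2, rfl⟩ | ⟨h2, rfl⟩⟩
    · left; exact ⟨lo_up x, hi_up x⟩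
    · right; exact ⟨hi_dn x, lo_dn x⟩
  · intro x y h
    have := h.crs
    rw [Crs_iff] at this
    exact ⟨by unfold w; linarith [this.2], by unfold w; linarith [this.1]⟩

theorem tau_lo (x : H × ℂ) : tau v (hi x) (lo T x) = T.tin v x := by
  unfold tau Tri.tin hi lo
  rw [add_sub_cancel_left]

theorem tau_hi (x : H × ℂ) : tau v (lo T x) (hi x) = T.tin v x := by
  unfold tau Tri.tin hi lo
  have e1 : x.2 - (x.2 + T.vec x.1) = -T.vec x.1 := by ring
  rw [e1]
  have e2 : cr (x.2 + T.vec x.1) (-T.vec x.1) = - cr x.2 (T.vec x.1) := by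
    simp only [cr, Complex.add_re, Complex.add_im, Complex.neg_re, Complex.neg_im]; ring
  have e3 : cr v (-T.vec x.1) = - cr v (T.vec x.1) := by
    simp only [cr, Complex.neg_re, Complex.neg_im]; ring
  rw [e2, e3, neg_div_neg_eq]

/-- translated state -/
def sh (A : ℂ) (x : H × ℂ) : H × ℂ := (x.1, x.2 - A)

theorem apex_sh (A : ℂ) (x : H × ℂ) : T.apex (sh A x) = T.apex x - A := by
  unfold Tri.apex sh; simp only; ring
theorem up_sh (A : ℂ) (x : H × ℂ) : T.up (sh A x) = sh A (T.up x) := by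
  unfold Tri.up
  rw [apex_sh]; rfl
theorem dn_sh (A : ℂ) (x : H × ℂ) : T.dn (sh A x) = sh A (T.dn x) := rfl

theorem hits_of_AP {A b : ℂ} {s x : H × ℂ} {l : List (H × ℂ)} (h : AP (Rel T v) s l x)
    (hx : ∀ y ∈ l ++ [x], 0 < cr b (hi y - A) ∧ cr b (lo T y - A) < 0) :
    ∀ l2, T.Hits b (sh A x) l2 → T.Hits b (sh A s) (l.map (sh A) ++ l2) := by
  induction h with
  | nil => intro l2 h2; simpa using h2
  | cons h1 h2 ih =>
    rename_i l t t'
    intro l2 hl2
    have ht' := hx t' (by simp)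
    have key : T.Hits b (sh A t) (sh A t :: l2) := by
      obtain ⟨h3, ⟨h4, rfl⟩ | ⟨h4, rfl⟩⟩ := h2
      · refine Tri.Hits.up ?_ ?_
        · rw [apex_sh]; rw [hi_up] at ht'; exact ht'.1
        · rw [up_sh]; exact hl2
      · refine Tri.Hits.dn ?_ ?_
        · rw [apex_sh]; rw [lo_dn] at ht'; exact ht'.2
        · rw [dn_sh]; exact hl2
    have := ih (fun y hy => hx y (List.mem_append_left _ hy)) _ key
    rw [List.map_append, List.append_assoc]
    simpa using this

/-- a visible end gives a saddle connection -/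
theorem hits_of_data {A b : ℂ} {s : H × ℂ} {G : H × ℂ → Prop} {l : List (H × ℂ)} {x : H × ℂ}
    (h : AP (Rel T v) s l x)
    (hx : ∀ y ∈ l ++ [x], G y ∧ 0 < cr b (hi y - A) ∧ cr b (lo T y - A) < 0)
    (ha : T.apex x = A + b) :
    T.Hits b (sh A s) ((l ++ [x]).map (sh A)) := by
  have h1 : T.Hits b (sh A x) [sh A x] := by
    refine Tri.Hits.hit ?_
    rw [apex_sh, ha]; ring
  have := hits_of_AP h (fun y hy => (hx y hy).2) _ h1
  rw [List.map_append]
  simpa using this

theorem AP.first {R : H × ℂ → H × ℂ → Prop} {s : H × ℂ} {l : List (H × ℂ)} {t : H × ℂ}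
    (h : AP R s l t) : s ∈ l ++ [t] := by
  induction h with
  | nil => simp
  | cons h1 h2 ih => exact List.mem_append_left _ ih

/-- origin on the edge of the state: lengths -/
theorem origin_le {s : H × ℂ} (hc : T.Crs v s) (h0 : cr s.2 (T.vec s.1) = 0) :
    ‖hi s‖ ≤ ‖T.vec s.1‖ ∧ ‖lo T s‖ ≤ ‖T.vec s.1‖ := by
  have h1 : w 1 (T.vec s.1) s.2 = 0 := by
    unfold w
    have : cr (T.vec s.1) s.2 = - cr s.2 (T.vec s.1) := by simp only [cr]; ring
    rw [this, h0]; ring
  obtain ⟨r, hr⟩ := par one_ne_zero (T.vec_ne_zero s.1) h1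
  obtain ⟨h2, h3⟩ := hc
  have e1 : cr v (s.2 + T.vec s.1) = cr v s.2 + cr v (T.vec s.1) := by
    simp only [cr, Complex.add_re, Complex.add_im]; ring
  have e2 : cr v s.2 = r * cr v (T.vec s.1) := by
    rw [hr]
    simp only [cr, Complex.mul_re, Complex.mul_im, Complex.ofReal_re, Complex.ofReal_im]; ring
  rw [e1] at h3
  have h4 : cr v (T.vec s.1) < 0 := by linarith
  have hr0 : r < 0 := by
    by_contra hle
    push Not at hle
    have := mul_nonpos_of_nonneg_of_nonpos hle h4.le
    linarith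
  have hr1 : -1 < r := by
    by_contra hle
    push Not at hle
    have : 0 ≤ (1 + r) * cr v (T.vec s.1) :=
      mul_nonneg_of_nonpos_of_nonpos (by linarith) h4.le
    nlinarith
  have hn := norm_nonneg (T.vec s.1)
  constructor
  · unfold hi
    rw [hr, norm_mul, Complex.norm_real, Real.norm_eq_abs]
    have : |r| ≤ 1 := abs_le.2 ⟨by linarith, by linarith⟩
    nlinarith
  · unfold lo
    have e3 : s.2 + T.vec s.1 = ((1 + r : ℝ) : ℂ) * T.vec s.1 := by
      rw [hr]; push_cast; ring
    rw [e3, norm_mul, Complex.norm_real, Real.norm_eq_abs]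
    have : |1 + r| ≤ 1 := abs_le.2 ⟨by linarith, by linarith⟩
    nlinarith

theorem tin_zero {s : H × ℂ} (h0 : cr s.2 (T.vec s.1) = 0) : T.tin v s = 0 := by
  unfold Tri.tin; rw [h0, zero_div]

/-- The hypotheses of the crossing lemma. -/
structure GapAt (T : Tri H) (E : Set H) (l L : ℝ) : Prop where
  sym : ∀ h, h ∈ E → T.opp h ∈ E
  short : ∀ h ∈ E, ‖T.vec h‖ ≤ l
  gap : ∀ T', Reach E T T' → ∀ g, g ∉ E → L < ‖T'.vec g‖

section
variable {E : Set H} {l L : ℝ} {s : H × ℂ}

theorem GapAt.no_sad (hg : GapAt T E l L) {h : H} {b : ℂ} {ls : List (H × ℂ)}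
    (hs : T.Sad h b ls) (hl : ∀ x ∈ ls, x.1 ∉ E) : L < ‖b‖ := by
  obtain ⟨T', g, h1, h2, h3⟩ := Pool.Agent.Helper60.G1.insertion T E hg.sym hs hl
  rw [← h3]
  exact hg.gap T' h1 g h2

theorem GapAt.self (hg : GapAt T E l L) {g : H} (h : g ∉ E) : L < ‖T.vec g‖ :=
  hg.gap T Reach.refl g h

/-- a visible end on the lower side is far -/
theorem GapAt.out_lo (hg : GapAt T E l L) {r : ℝ}
    (hO : Out 1 (lo T s) (lo T) hi T.apex (Rel T v) (fun x => x.1 ∉ E) (T.dn s)
      (lo T (T.dn s) - lo T s) r) (hn : T.next s.1 ∉ E) : L < r := by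
  obtain ⟨b, hb, rfl | ⟨l1, x, h1, h2, h3⟩⟩ := hO
  · have e : lo T (T.dn s) - lo T s = T.vec (T.next s.1) := by
      rw [lo_dn]; unfold lo Tri.apex; ring
    rw [e] at hb
    exact (hg.self hn).trans_le hb
  · have h4 : ∀ y ∈ l1 ++ [x], y.1 ∉ E ∧ 0 < cr b (hi y - lo T s) ∧ cr b (lo T y - lo T s) < 0 := by
      intro y hy
      have := h2 y hy
      simp only [w, one_mul] at this
      exact this
    have h5 := hits_of_data h1 h4 h3
    have h6 : T.cst (T.next s.1) = sh (lo T s) (T.dn s) := by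
      unfold Tri.cst sh Tri.dn lo
      rw [T.next_next, T.prev_next]
      congr 1
      ring
    have h7 : T.Sad (T.next s.1) b ((l1 ++ [x]).map (sh (lo T s))) := by
      refine ⟨?_, by rw [h6]; exact h5⟩
      have h8 := (h4 _ h1.first).2
      rw [hi_dn, lo_dn] at h8
      constructor
      · have e : cr (T.vec (T.next s.1)) b = - cr b (T.apex s - lo T s) := by
          unfold lo Tri.apex
          simp only [cr, Complex.sub_re, Complex.sub_im, Complex.add_re, Complex.add_im]; ring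
        rw [e]; linarith [h8.2]
      · rw [T.prev_next]
        have e : cr b (-T.vec s.1) = cr b (hi s - lo T s) := by
          unfold lo hi
          simp only [cr, Complex.sub_re, Complex.sub_im, Complex.add_re, Complex.add_im,
            Complex.neg_re, Complex.neg_im]; ring
        rw [e]; exact h8.1
    refine (hg.no_sad h7 ?_).trans_le hb
    intro y hy
    obtain ⟨z, hz, rfl⟩ := List.mem_map.1 hy
    exact (h4 z hz).1

/-- a visible end on the upper side is far -/
theorem GapAt.out_hi (hg : GapAt T E l L) {r : ℝ}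
    (hO : Out (-1) (hi s) hi (lo T) T.apex (Rel T v) (fun x => x.1 ∉ E) (T.up s)
      (hi (T.up s) - hi s) r) (hn : T.prev s.1 ∉ E) : L < r := by
  obtain ⟨b, hb, rfl | ⟨l1, x, h1, h2, h3⟩⟩ := hO
  · have e : hi (T.up s) - hi s = -T.vec (T.prev s.1) := by
      rw [hi_up, apex_eq]; unfold hi; ring
    rw [e, norm_neg] at hb
    exact (hg.self hn).trans_le hb
  · have h4 : ∀ y ∈ l1 ++ [x], y.1 ∉ E ∧ 0 < cr b (hi y - hi s) ∧ cr b (lo T y - hi s) < 0 := by
      intro y hy
      have := h2 y hy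
      simp only [w] at this
      exact ⟨this.1, by linarith [this.2.2], by linarith [this.2.1]⟩
    have h5 := hits_of_data h1 h4 h3
    have h6 : T.cst s.1 = sh (hi s) (T.up s) := by
      unfold Tri.cst sh Tri.up hi
      rw [apex_eq]
      congr 1
      ring
    have h7 : T.Sad s.1 b ((l1 ++ [x]).map (sh (hi s))) := by
      refine ⟨?_, by rw [h6]; exact h5⟩
      have h8 := (h4 _ h1.first).2
      rw [hi_up, lo_up] at h8
      constructor
      · have e : cr (T.vec s.1) b = - cr b (lo T s - hi s) := by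
          unfold lo hi
          simp only [cr, Complex.sub_re, Complex.sub_im, Complex.add_re, Complex.add_im]; ring
        rw [e]; linarith [h8.2]
      · have e : cr b (-T.vec (T.prev s.1)) = cr b (T.apex s - hi s) := by
          rw [apex_eq]; unfold hi
          simp only [cr, Complex.sub_re, Complex.sub_im,
            Complex.neg_re, Complex.neg_im]; ring
        rw [e]; exact h8.1
    refine (hg.no_sad h7 ?_).trans_le hb
    intro y hy
    obtain ⟨z, hz, rfl⟩ := List.mem_map.1 hy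
    exact (h4 z hz).1

theorem AP_of_runs {s1 : H × ℂ} (hs : T.Crs v s) (h1 : Rel T v s s1) {t : H × ℂ}
    (h : T.Runs v s t) : T.Crs v t ∧ (t = s ∨ ∃ l, AP (Rel T v) s1 l t) := by
  have huniq : ∀ y, Rel T v s y → y = s1 := by
    intro y hy
    obtain ⟨_, ⟨h2, rfl⟩ | ⟨h2, rfl⟩⟩ := h1 <;> obtain ⟨_, ⟨h3, rfl⟩ | ⟨h3, rfl⟩⟩ := hy
    · rfl
    · exact absurd h2 (by linarith)
    · exact absurd h2 (by linarith)
    · rfl
  have hstep : ∀ t t', (T.Crs v t ∧ (t = s ∨ ∃ l, AP (Rel T v) s1 l t)) → Rel T v t t' →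
      (T.Crs v t' ∧ (t' = s ∨ ∃ l, AP (Rel T v) s1 l t')) := by
    rintro t t' ⟨h2, h3⟩ h4
    refine ⟨h4.crs, Or.inr ?_⟩
    rcases h3 with rfl | ⟨l, hl⟩
    · rw [huniq _ h4]; exact ⟨[], AP.nil⟩
    · exact ⟨l ++ [t], AP.cons hl h4⟩
  induction h with
  | refl => exact ⟨hs, Or.inl rfl⟩
  | up h2 h3 ih => exact hstep _ _ ih ⟨ih.1, Or.inl ⟨h3, rfl⟩⟩
  | dn h2 h3 ih => exact hstep _ _ ih ⟨ih.1, Or.inr ⟨h3, rfl⟩⟩

/-- the two cases of the first step, for paths which start after it -/
theorem GapAt.path (hg : GapAt T E l L) (hc : T.Crs v s) (h0 : cr s.2 (T.vec s.1) = 0)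
    (hsE : s.1 ∈ E) (hn : T.next s.1 ∉ E) (hp : T.prev s.1 ∉ E) (hv : 2 * l + ‖v‖ ≤ L)
    {s1 : H × ℂ} (h1 : Rel T v s s1) {ls : List (H × ℂ)} {t : H × ℂ}
    (hap : AP (Rel T v) s1 ls t) (hG : ∀ x ∈ ls, x.1 ∉ E) (ht : T.tin v t ≤ 1) :
    t.1 ∉ E ∧ ∀ τ : ℝ, τ ≤ 1 → T.apex t ≠ τ * v := by
  obtain ⟨hhi, hlo⟩ := origin_le hc h0
  have hsl := hg.short _ hsE
  have hpos := T.pos s.1
  have hcr := hc
  rw [Crs_iff] at hcr
  have hs1 := h1.crs
  rw [Crs_iff] at hs1
  have ht0 := tin_zero (v := v) h0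
  rcases h1.2 with ⟨h2, rfl⟩ | ⟨h2, rfl⟩
  · -- first step up: near ends are the upper ends
    have hA : w (-1) v (hi s) < 0 := by unfold w; linarith [hcr.1]
    have hs' : 0 < w (-1) v (lo T (T.up s)) ∧ w (-1) v (hi (T.up s)) < 0 := by
      unfold w; constructor <;> linarith [hs1.1, hs1.2]
    have hpos' : 0 < w (-1) (hi s - lo T (T.up s)) (hi (T.up s) - lo T (T.up s)) := by
      rw [lo_up, hi_up]
      have e : w (-1) (hi s - lo T s) (T.apex s - lo T s) = cr (T.vec s.1) (T.vec (T.next s.1)) := by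
        unfold w lo hi Tri.apex
        simp only [cr, Complex.sub_re, Complex.sub_im, Complex.add_re, Complex.add_im]; ring
      rw [e]; exact hpos
    have hτ : 0 ≤ tau v (lo T (T.up s)) (hi (T.up s)) := by
      have h3 := tau_lt (σ := -1) (v := v) (rules_hi (T := T))
        (t := s) (t' := T.up s) ?_ h1
      · rw [tau_hi, ht0] at h3; exact h3.le
      · unfold w; constructor <;> linarith [hcr.1, hcr.2]
    have htt : tau v (lo T t) (hi t) ≤ 1 := by rw [tau_hi]; exact ht
    have key1 : t.1 ∉ E := by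
      intro htE
      have hO := funnel_edge (G := fun x : H × ℂ => x.1 ∉ E) (rules_hi (T := T) (v := v))
        (by norm_num) hA hs' hpos' hτ hap hG htt
      have h4 := hg.out_hi hO hp
      have h5 : ‖hi t - lo T t‖ = ‖T.vec t.1‖ := by
        have : hi t - lo T t = -T.vec t.1 := by unfold hi lo; ring
        rw [this, norm_neg]
      have h6 := hg.short _ htE
      linarith
    refine ⟨key1, ?_⟩
    intro τ hτ1 hτ2
    have hO := funnel_vertex (G := fun x : H × ℂ => x.1 ∉ E) (rules_hi (T := T) (v := v))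
        (by norm_num) hA hs' hpos' hτ hap (by
          intro x hx
          rcases List.mem_append.1 hx with h | h
          · exact hG x h
          · rw [List.mem_singleton.1 h]; exact key1) hτ2 hτ1
    have h4 := hg.out_hi hO hp
    have := norm_nonneg (hi s)
    linarith
  · -- first step down: near ends are the lower ends
    have hA : w 1 v (lo T s) < 0 := by unfold w; linarith [hcr.2]
    have hs' : 0 < w 1 v (hi (T.dn s)) ∧ w 1 v (lo T (T.dn s)) < 0 := by
      unfold w; constructor <;> linarith [hs1.1, hs1.2]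
    have hpos' : 0 < w 1 (lo T s - hi (T.dn s)) (lo T (T.dn s) - hi (T.dn s)) := by
      rw [lo_dn, hi_dn]
      have e : w 1 (lo T s - hi s) (T.apex s - hi s) = cr (T.vec s.1) (T.vec (T.next s.1)) := by
        unfold w lo hi Tri.apex
        simp only [cr, Complex.sub_re, Complex.sub_im, Complex.add_re, Complex.add_im]; ring
      rw [e]; exact hpos
    have hτ : 0 ≤ tau v (hi (T.dn s)) (lo T (T.dn s)) := by
      have h3 := tau_lt (σ := 1) (v := v) (rules_lo (T := T))
        (t := s) (t' := T.dn s) ?_ h1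
      · rw [tau_lo, ht0] at h3; exact h3.le
      · unfold w; constructor <;> linarith [hcr.1, hcr.2]
    have htt : tau v (hi t) (lo T t) ≤ 1 := by rw [tau_lo]; exact ht
    have key1 : t.1 ∉ E := by
      intro htE
      have hO := funnel_edge (G := fun x : H × ℂ => x.1 ∉ E) (rules_lo (T := T) (v := v))
        (by norm_num) hA hs' hpos' hτ hap hG htt
      have h4 := hg.out_lo hO hn
      have h5 : ‖lo T t - hi t‖ = ‖T.vec t.1‖ := by
        have : lo T t - hi t = T.vec t.1 := by unfold hi lo; ring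
        rw [this]
      have h6 := hg.short _ htE
      linarith
    refine ⟨key1, ?_⟩
    intro τ hτ1 hτ2
    have hO := funnel_vertex (G := fun x : H × ℂ => x.1 ∉ E) (rules_lo (T := T) (v := v))
        (by norm_num) hA hs' hpos' hτ hap (by
          intro x hx
          rcases List.mem_append.1 hx with h | h
          · exact hG x h
          · rw [List.mem_singleton.1 h]; exact key1) hτ2 hτ1
    have h4 := hg.out_lo hO hn
    have := norm_nonneg (lo T s)
    linarith

/-- The crossing lemma for paths after the first step. -/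
theorem GapAt.path_all (hg : GapAt T E l L) (hc : T.Crs v s) (h0 : cr s.2 (T.vec s.1) = 0)
    (hsE : s.1 ∈ E) (hn : T.next s.1 ∉ E) (hp : T.prev s.1 ∉ E) (hv : 2 * l + ‖v‖ ≤ L)
    {s1 : H × ℂ} (h1 : Rel T v s s1) {ls : List (H × ℂ)} {t : H × ℂ}
    (hap : AP (Rel T v) s1 ls t) (ht : T.tin v t ≤ 1) :
    (∀ x ∈ ls ++ [t], x.1 ∉ E) ∧ ∀ τ : ℝ, τ ≤ 1 → T.apex t ≠ τ * v := by
  induction hap with
  | nil =>
    have := hg.path hc h0 hsE hn hp hv h1 (AP.nil) (by simp) ht
    exact ⟨by simpa using this.1, this.2⟩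
  | cons h2 h3 ih =>
    rename_i l t t'
    have hcrt : 0 < w 1 v (hi t) ∧ w 1 v (lo T t) < 0 := by
      have := h3.1
      rw [Crs_iff] at this
      unfold w; constructor <;> linarith [this.1, this.2]
    have h4 := tau_lt (rules_lo (T := T) (v := v)) hcrt h3
    rw [tau_lo, tau_lo] at h4
    have h5 := ih (by linarith)
    have h6 := hg.path hc h0 hsE hn hp hv h1 (AP.cons h2 h3) h5.1 ht
    refine ⟨?_, h6.2⟩
    intro x hx
    rcases List.mem_append.1 hx with h | h
    · exact h5.1 x h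
    · rw [List.mem_singleton.1 h]; exact h6.1

/-- Both other sides of a triangle which has a side in `E` and one outside are outside. -/
theorem GapAt.sides (hg : GapAt T E l L) (hlL : 2 * l ≤ L) {h : H} (hh : h ∈ E)
    (hne : T.next h ∉ E ∨ T.prev h ∉ E) : T.next h ∉ E ∧ T.prev h ∉ E := by
  have h1 := hg.short h hh
  have h2 := T.vec_prev h
  rcases hne with h3 | h3
  · refine ⟨h3, fun h4 => ?_⟩
    have h5 := hg.short _ h4
    have h6 := hg.self h3
    have h7 : T.vec (T.next h) = -(T.vec (T.prev h) + T.vec h) := by rw [h2]; ring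
    have h8 : ‖T.vec (T.next h)‖ ≤ ‖T.vec (T.prev h)‖ + ‖T.vec h‖ := by
      rw [h7, norm_neg]; exact norm_add_le _ _
    linarith
  · refine ⟨fun h4 => ?_, h3⟩
    have h5 := hg.short _ h4
    have h6 := hg.self h3
    have h8 : ‖T.vec (T.prev h)‖ ≤ ‖T.vec h‖ + ‖T.vec (T.next h)‖ := by
      rw [h2, norm_neg]; exact norm_add_le _ _
    linarith

/-- CROSSING LEMMA (G3). All edges outside `E` of all triangulations reachable by flips outside `E`
are longer than `L`, the edges in `E` are at most `l`, `2 l + ‖v‖ ≤ L`. A straight segment with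
vector `v` which starts at an interior point (the origin) of an edge in `E` into a triangle which is
not all `E` meets no edge of `E` and no vertex. -/
theorem crossing (hg : GapAt T E l L) (hv : 2 * l + ‖v‖ ≤ L) (hc : T.Crs v s)
    (h0 : cr s.2 (T.vec s.1) = 0) (hsE : s.1 ∈ E) (hne : T.next s.1 ∉ E ∨ T.prev s.1 ∉ E)
    {t : H × ℂ} (hr : T.Runs v s t) (ht : T.tin v t ≤ 1) :
    (t = s ∨ t.1 ∉ E) ∧ ∀ τ : ℝ, τ ≤ 1 → T.apex t ≠ τ * v := by
  obtain ⟨hn, hp⟩ := hg.sides (by linarith [norm_nonneg v]) hsE hne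
  obtain ⟨hhi, hlo⟩ := origin_le hc h0
  have hsl := hg.short _ hsE
  rcases lt_trichotomy (cr v (T.apex s)) 0 with h | h | h
  · have h1 : Rel T v s (T.dn s) := ⟨hc, Or.inr ⟨h, rfl⟩⟩
    rcases (AP_of_runs hc h1 hr).2 with rfl | ⟨ls, hls⟩
    · refine ⟨Or.inl rfl, ?_⟩
      intro τ _ h3
      rw [h3] at h
      simp only [cr, Complex.mul_re, Complex.mul_im, Complex.ofReal_re, Complex.ofReal_im] at h
      nlinarith
    · have := hg.path_all hc h0 hsE hn hp hv h1 hls ht
      exact ⟨Or.inr (this.1 t (by simp)), this.2⟩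
  · -- the apex is on the line: only `t = s`
    have hts : t = s := by
      have : ∀ t, T.Runs v s t → t = s := by
        intro t ht
        induction ht with
        | refl => rfl
        | up h1 h2 ih => rw [ih] at h2; exact absurd h2 (by rw [h]; exact lt_irrefl _)
        | dn h1 h2 ih => rw [ih] at h2; exact absurd h2 (by rw [h]; exact lt_irrefl _)
      exact this t hr
    subst hts
    refine ⟨Or.inl rfl, ?_⟩
    intro τ hτ1 hτ2
    -- `0 < τ`
    have hτ0 : 0 ≤ τ := by
      by_contra hlt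
      push Not at hlt
      have hpos := T.pos t.1
      have e1 : cr (T.vec t.1) (T.apex t) = cr (T.vec t.1) t.2 + cr (T.vec t.1) (T.vec (T.next t.1)) := by
        unfold Tri.apex
        simp only [cr, Complex.add_re, Complex.add_im]; ring
      have e2 : cr (T.vec t.1) t.2 = 0 := by
        have : cr (T.vec t.1) t.2 = - cr t.2 (T.vec t.1) := by simp only [cr]; ring
        rw [this, h0, neg_zero]
      have e3 : cr (T.vec t.1) (τ * v) = - τ * cr v (T.vec t.1) := by
        simp only [cr, Complex.mul_re, Complex.mul_im, Complex.ofReal_re, Complex.ofReal_im]; ring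
      have e4 : cr v (T.vec t.1) < 0 := by
        have h5 := hc.1
        have h6 := hc.2
        have : cr v (t.2 + T.vec t.1) = cr v t.2 + cr v (T.vec t.1) := by
          simp only [cr, Complex.add_re, Complex.add_im]; ring
        rw [this] at h6
        linarith
      rw [hτ2, e2, zero_add, e3] at e1
      nlinarith
    have h5 : T.vec (T.prev t.1) = hi t - T.apex t := by rw [apex_eq]; unfold hi; ring
    have h6 := hg.self hp
    rw [h5, hτ2] at h6
    have h7 : ‖hi t - τ * v‖ ≤ ‖hi t‖ + τ * ‖v‖ := by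
      refine (norm_sub_le _ _).trans ?_
      rw [norm_mul, Complex.norm_real, Real.norm_of_nonneg hτ0]
    have h8 : τ * ‖v‖ ≤ 1 * ‖v‖ := mul_le_mul_of_nonneg_right hτ1 (norm_nonneg v)
    have h9 := norm_nonneg (T.vec t.1)
    linarith
  · have h1 : Rel T v s (T.up s) := ⟨hc, Or.inl ⟨h, rfl⟩⟩
    rcases (AP_of_runs hc h1 hr).2 with rfl | ⟨ls, hls⟩
    · refine ⟨Or.inl rfl, ?_⟩
      intro τ _ h3
      rw [h3] at h
      simp only [cr, Complex.mul_re, Complex.mul_im, Complex.ofReal_re, Complex.ofReal_im] at h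
      nlinarith
    · have := hg.path_all hc h0 hsE hn hp hv h1 hls ht
      exact ⟨Or.inr (this.1 t (by simp)), this.2⟩

end

end Pool.Agent.Helper33.FN
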