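import Pool.Agent.Helper33.FN.Plane

/-!
# MP_e98778_an (full), G3 (crossing lemma): the funnel

Abstract run of a straight line `ℝ v` through a chain of edges with ends `F x` (far side) and `N x`
(near side) and next vertex `ap x`; `A` is the near end of the edge on which the run starts.
Invariant `Inv`: the current best direction `b` from `A` (a near end seen from `A`), all crossing
points are beyond the ray, all near ends are not, `A` is strictly left of all edges.
Result: a near end `A + b` which is visible from `A` through the crossed edges, with `‖b‖` at most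
(distance from `A` to the origin) + (length of the run) + (length of the last edge).
-/

set_option autoImplicit false

open Pool.Agent.Helper87.LS

namespace Pool.Agent.Helper33.FN

variable {X : Type}

/-- paths, with the list of all states before the last one -/
inductive AP (R : X → X → Prop) (s : X) : List X → X → Prop
  | nil : AP R s [] s
  | cons {l : List X} {t t' : X} : AP R s l t → R t t' → AP R s (l ++ [t]) t'

/-- the rules of a run -/
structure Rules (σ : ℝ) (v : ℂ) (N F ap : X → ℂ) (R : X → X → Prop) : Prop where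
  pos : ∀ x, 0 < w σ (N x - F x) (ap x - F x)
  step : ∀ x y, R x y → (F y = F x ∧ N y = ap x) ∨ (N y = N x ∧ F y = ap x)
  crs : ∀ x y, R x y → 0 < w σ v (F y) ∧ w σ v (N y) < 0

/-- a visible near end -/
def Data (σ : ℝ) (A : ℂ) (N F ap : X → ℂ) (R : X → X → Prop) (G : X → Prop) (s : X) (b : ℂ) :
    Prop :=
  ∃ l x, AP R s l x ∧
    (∀ y ∈ l ++ [x], G y ∧ 0 < w σ b (F y - A) ∧ w σ b (N y - A) < 0) ∧ ap x = A + b

def Out (σ : ℝ) (A : ℂ) (N F ap : X → ℂ) (R : X → X → Prop) (G : X → Prop) (s : X) (c0 : ℂ)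
    (r : ℝ) : Prop := ∃ b, ‖b‖ ≤ r ∧ (b = c0 ∨ Data σ A N F ap R G s b)

/-- the invariant -/
structure Inv (σ : ℝ) (v A : ℂ) (N F ap : X → ℂ) (R : X → X → Prop) (G : X → Prop) (s : X)
    (c0 : ℂ) (l : List X) (t : X) (b : ℂ) : Prop where
  q : ∀ x ∈ l ++ [t], 0 < w σ b (tau v (F x) (N x) * v - A)
  lf : ∀ x ∈ l ++ [t], 0 < w σ (A - F x) (N x - F x)
  c : ∀ x ∈ l ++ [t], w σ b (N x - A) ≤ 0
  xs : ∀ x ∈ l ++ [t], 0 < w σ v (F x) ∧ w σ v (N x) < 0
  t0 : ∀ x ∈ l ++ [t], 0 ≤ tau v (F x) (N x) ∧ tau v (F x) (N x) ≤ tau v (F t) (N t)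
  bl : 0 ≤ w σ (A + b - F t) (N t - F t)
  bb : w σ v (A + b) < 0
  data : b = c0 ∨ Data σ A N F ap R G s b

variable {σ : ℝ} {v A c0 : ℂ} {N F ap : X → ℂ} {R : X → X → Prop} {G : X → Prop} {s : X}

theorem Out.mono {r r' : ℝ} (h : Out σ A N F ap R G s c0 r) (hr : r ≤ r') :
    Out σ A N F ap R G s c0 r' := by
  obtain ⟨b, h1, h2⟩ := h
  exact ⟨b, h1.trans hr, h2⟩

theorem AP.cross (hR : Rules σ v N F ap R) (hs : 0 < w σ v (F s) ∧ w σ v (N s) < 0) {l : List X}
    {t : X} (h : AP R s l t) : 0 < w σ v (F t) ∧ w σ v (N t) < 0 := by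
  cases h with
  | nil => exact hs
  | cons h1 h2 => exact hR.crs _ _ h2

theorem w_sub {a b c : ℂ} : w σ a (b - c) = w σ a b - w σ a c := by
  simp only [w, cr, Complex.sub_re, Complex.sub_im]; ring

theorem w_add {a b c : ℂ} : w σ a (b + c) = w σ a b + w σ a c := by
  simp only [w, cr, Complex.add_re, Complex.add_im]; ring

theorem w_base (v z : ℂ) (τ : ℝ) : w σ v (τ * v - z) = - w σ v z := by
  simp only [w, cr, Complex.sub_re, Complex.sub_im, Complex.mul_re, Complex.mul_im,
    Complex.ofReal_re, Complex.ofReal_im]; ring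

/-- the crossing parameters increase -/
theorem tau_lt (hR : Rules σ v N F ap R) {t t' : X} (ht : 0 < w σ v (F t) ∧ w σ v (N t) < 0)
    (hr : R t t') : tau v (F t) (N t) < tau v (F t') (N t') := by
  have ht' := hR.crs _ _ hr
  have hp := hR.pos t
  have h0 : w σ (tau v (F t) (N t) * v - F t) (N t - F t) = 0 := by
    rw [w_tau_left ht.1 ht.2]; ring
  have key : 0 < w σ (tau v (F t) (N t) * v - F t') (N t' - F t') := by
    rcases hR.step _ _ hr with ⟨h1, h2⟩ | ⟨h1, h2⟩
    · rw [h1, h2]
      refine left_N (b := v) (N := N t) ?_ ?_ ?_ hp h0.ge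
      · rw [w_base]; linarith [ht.1]
      · exact w_edge_neg ht.1 ht.2
      · rw [w_sub, ← h2]; linarith [ht'.2, ht.1]
    · rw [h1, h2]
      refine (left_F (b := v) (F := F t) ?_ ?_ ?_ hp h0.ge).2 (Or.inl ?_)
      · rw [w_base]; linarith [ht.2]
      · rw [w_sub]; linarith [ht.2, ht.1]
      · rw [w_sub, ← h2]; linarith [ht'.1, ht.2]
      · rw [w_base]; linarith [ht.2]
  rw [w_tau_left ht'.1 ht'.2] at key
  have hneg := w_edge_neg ht'.1 ht'.2
  by_contra hle
  push Not at hle
  have := mul_nonpos_of_nonneg_of_nonpos (sub_nonneg.2 hle) hneg.le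
  linarith

theorem init (hs : 0 < w σ v (F s) ∧ w σ v (N s) < 0) (hpos : 0 < w σ (A - F s) (N s - F s))
    (hτ : 0 ≤ tau v (F s) (N s)) (hc : c0 = N s - A) :
    Inv σ v A N F ap R G s c0 [] s c0 := by
  subst hc
  have hAb : A + (N s - A) = N s := by ring
  refine ⟨?_, ?_, ?_, ?_, ?_, ?_, ?_, Or.inl rfl⟩
  · intro x hx
    simp only [List.nil_append, List.mem_singleton] at hx
    subst hx
    exact near_tau hs.1 hs.2 hpos
  · intro x hx
    simp only [List.nil_append, List.mem_singleton] at hx
    subst hx; exact hpos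
  · intro x hx
    simp only [List.nil_append, List.mem_singleton] at hx
    subst hx; rw [w_self]
  · intro x hx
    simp only [List.nil_append, List.mem_singleton] at hx
    subst hx; exact hs
  · intro x hx
    simp only [List.nil_append, List.mem_singleton] at hx
    subst hx; exact ⟨hτ, le_rfl⟩
  · rw [hAb, w_self]
  · rw [hAb]; exact hs.2

theorem Inv.step (hR : Rules σ v N F ap R) (hσ : σ ≠ 0) (hA : w σ v A < 0) {l : List X} {t t' : X}
    {b : ℂ} (hI : Inv σ v A N F ap R G s c0 l t b) (hp : AP R s l t) (hG : ∀ x ∈ l ++ [t], G x)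
    (hr : R t t') : (∃ b', Inv σ v A N F ap R G s c0 (l ++ [t]) t' b') ∨
      Out σ A N F ap R G s c0 (‖A‖ + tau v (F t') (N t') * ‖v‖) := by
  have htm : t ∈ l ++ [t] := by simp
  have hcr := hI.xs t htm
  have hcr' := hR.crs _ _ hr
  have hlt := tau_lt hR hcr hr
  have hq := hI.q t htm
  have hτ := (hI.t0 t htm).1
  have hmem : ∀ x, x ∈ (l ++ [t]) ++ [t'] → x ∈ l ++ [t] ∨ x = t' := by
    intro x hx
    rcases List.mem_append.1 hx with h | h
    · exact Or.inl h
    · exact Or.inr (List.mem_singleton.1 h)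
  have hfar : 0 < w σ b (F t - A) := far_pos hcr.1 hcr.2 hq (hI.c t htm)
  have hpos := hR.pos t
  have hτ' : 0 ≤ tau v (F t') (N t') := by linarith
  rcases le_or_gt (w σ b (tau v (F t') (N t') * v - A)) 0 with hq' | hq'
  · right
    exact ⟨b, bound_alpha hσ hτ hlt hq hq' hA hI.bb, hI.data⟩
  left
  have ht0 : ∀ x ∈ (l ++ [t]) ++ [t'], 0 ≤ tau v (F x) (N x) ∧
      tau v (F x) (N x) ≤ tau v (F t') (N t') := by
    intro x hx
    rcases hmem x hx with h | rfl
    · have := hI.t0 x h
      exact ⟨this.1, this.2.trans hlt.le⟩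
    · exact ⟨hτ', le_rfl⟩
  have hcrs : ∀ x ∈ (l ++ [t]) ++ [t'], 0 < w σ v (F x) ∧ w σ v (N x) < 0 := by
    intro x hx
    rcases hmem x hx with h | rfl
    · exact hI.xs x h
    · exact hcr'
  rcases hR.step _ _ hr with ⟨h1, h2⟩ | ⟨h1, h2⟩
  · -- the near end changes
    have hlf' : 0 < w σ (A - F t') (N t' - F t') := by
      rw [h1, h2]
      refine left_N (b := v) (N := N t) ?_ ?_ ?_ hpos (hI.lf t htm).le
      · rw [w_sub]; linarith [hcr.1]
      · exact w_edge_neg hcr.1 hcr.2
      · rw [w_sub, ← h2]; linarith [hcr'.2, hcr.1]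
    have hlf : ∀ x ∈ (l ++ [t]) ++ [t'], 0 < w σ (A - F x) (N x - F x) := by
      intro x hx
      rcases hmem x hx with h | rfl
      · exact hI.lf x h
      · exact hlf'
    rcases le_or_gt (w σ b (N t' - A)) 0 with hc | hc
    · -- keep the direction
      refine ⟨b, ?_, hlf, ?_, hcrs, ht0, ?_, hI.bb, hI.data⟩
      · intro x hx
        rcases hmem x hx with h | rfl
        · exact hI.q x h
        · exact hq'
      · intro x hx
        rcases hmem x hx with h | rfl
        · exact hI.c x h
        · exact hc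
      · rw [h1, h2]
        refine (left_N (b := b) (N := N t) ?_ ?_ ?_ hpos hI.bl).le
        · have : w σ b (A + b - F t) = - w σ b (F t - A) := by
            simp only [w, cr, Complex.sub_re, Complex.sub_im, Complex.add_re, Complex.add_im]; ring
          rw [this]; linarith
        · have : w σ b (N t - F t) = w σ b (N t - A) - w σ b (F t - A) := by
            simp only [w, cr, Complex.sub_re, Complex.sub_im]; ring
          rw [this]; linarith [hI.c t htm]
        · have : w σ b (ap t - F t) = w σ b (N t' - A) - w σ b (F t - A) := by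
            rw [h2]
            simp only [w, cr, Complex.sub_re, Complex.sub_im]; ring
          rw [this]; linarith
    · -- new direction
      have hAb : A + (N t' - A) = N t' := by ring
      have hbq' : 0 < w σ (N t' - A) (tau v (F t') (N t') * v - A) :=
        near_tau hcr'.1 hcr'.2 hlf'
      have hbq : ∀ x ∈ l ++ [t], 0 < w σ (N t' - A) (tau v (F x) (N x) * v - A) := by
        intro x hx
        refine new_q hc ?_ (hI.q x hx) hbq' hq'
        rw [w_qq]
        refine mul_nonneg ?_ (by linarith)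
        have := (hI.t0 x hx).2
        linarith
      have hbc : ∀ x ∈ l ++ [t], w σ (N t' - A) (N x - A) < 0 := by
        intro x hx
        have hx' := hI.xs x hx
        exact new_c hc (hI.c x hx) (hbq x hx) (near_tau hx'.1 hx'.2 (hI.lf x hx)) (hI.q x hx)
      refine ⟨N t' - A, ?_, hlf, ?_, hcrs, ht0, ?_, ?_, Or.inr ⟨l, t, hp, ?_, ?_⟩⟩
      · intro x hx
        rcases hmem x hx with h | rfl
        · exact hbq x h
        · exact hbq'
      · intro x hx
        rcases hmem x hx with h | rfl
        · exact (hbc x h).le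
        · rw [w_self]
      · rw [hAb, w_self]
      · rw [hAb]; exact hcr'.2
      · intro y hy
        have hy' := hI.xs y hy
        exact ⟨hG y hy, far_pos hy'.1 hy'.2 (hbq y hy) (hbc y hy).le, hbc y hy⟩
      · rw [hAb, h2]
  · -- the far end changes
    have hc : w σ b (N t' - A) ≤ 0 := by rw [h1]; exact hI.c t htm
    have hfar' : 0 < w σ b (F t' - A) := far_pos hcr'.1 hcr'.2 hq' hc
    have e1 : 0 ≤ w σ b (A - N t) := by
      have : w σ b (A - N t) = - w σ b (N t - A) := by
        simp only [w, cr, Complex.sub_re, Complex.sub_im]; ring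
      rw [this]; linarith [hI.c t htm]
    have e2 : 0 < w σ b (F t - N t) := by
      have : w σ b (F t - N t) = w σ b (F t - A) - w σ b (N t - A) := by
        simp only [w, cr, Complex.sub_re, Complex.sub_im]; ring
      rw [this]; linarith [hI.c t htm]
    have e3 : 0 < w σ b (ap t - N t) := by
      have : w σ b (ap t - N t) = w σ b (F t' - A) - w σ b (N t - A) := by
        rw [h2]
        simp only [w, cr, Complex.sub_re, Complex.sub_im]; ring
      rw [this]; linarith [hI.c t htm]
    have hlf' : 0 < w σ (A - F t') (N t' - F t') := by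
      rw [h1, h2]
      exact (left_F (b := b) (F := F t) e1 e2 e3 hpos (hI.lf t htm).le).2 (Or.inr (hI.lf t htm))
    refine ⟨b, ?_, ?_, ?_, hcrs, ht0, ?_, hI.bb, hI.data⟩
    · intro x hx
      rcases hmem x hx with h | rfl
      · exact hI.q x h
      · exact hq'
    · intro x hx
      rcases hmem x hx with h | rfl
      · exact hI.lf x h
      · exact hlf'
    · intro x hx
      rcases hmem x hx with h | rfl
      · exact hI.c x h
      · exact hc
    · rw [h1, h2]
      have e4 : 0 ≤ w σ b (A + b - N t) := by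
        have : w σ b (A + b - N t) = w σ b (A - N t) := by
          simp only [w, cr, Complex.sub_re, Complex.sub_im, Complex.add_re, Complex.add_im]; ring
        rw [this]; exact e1
      exact (left_F (b := b) (F := F t) e4 e2 e3 hpos hI.bl).1

/-- the whole run -/
theorem run (hR : Rules σ v N F ap R) (hσ : σ ≠ 0) (hA : w σ v A < 0)
    (hs : 0 < w σ v (F s) ∧ w σ v (N s) < 0) (hpos : 0 < w σ (A - F s) (N s - F s))
    (hτ : 0 ≤ tau v (F s) (N s)) (hc : c0 = N s - A) {l : List X} {t : X} (hp : AP R s l t)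
    (hG : ∀ x ∈ l, G x) : (∃ b, Inv σ v A N F ap R G s c0 l t b) ∨
      Out σ A N F ap R G s c0 (‖A‖ + tau v (F t) (N t) * ‖v‖) := by
  induction hp with
  | nil => exact Or.inl ⟨c0, init hs hpos hτ hc⟩
  | cons h1 h2 ih =>
    rename_i l t t'
    rcases ih (fun x hx => hG x (List.mem_append_left _ hx)) with ⟨b, hI⟩ | hO
    · exact hI.step hR hσ hA h1 hG h2
    · right
      refine hO.mono ?_
      have h3 := tau_lt hR (h1.cross hR hs) h2
      have := mul_le_mul_of_nonneg_right h3.le (norm_nonneg v)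
      linarith

theorem funnel_edge (hR : Rules σ v N F ap R) (hσ : σ ≠ 0) (hA : w σ v A < 0)
    (hs : 0 < w σ v (F s) ∧ w σ v (N s) < 0) (hpos : 0 < w σ (A - F s) (N s - F s))
    (hτ : 0 ≤ tau v (F s) (N s)) {l : List X} {t : X} (hp : AP R s l t)
    (hG : ∀ x ∈ l, G x) (ht : tau v (F t) (N t) ≤ 1) :
    Out σ A N F ap R G s (N s - A) (‖A‖ + ‖v‖ + ‖N t - F t‖) := by
  have htv : tau v (F t) (N t) * ‖v‖ ≤ ‖v‖ := by
    have := mul_le_mul_of_nonneg_right ht (norm_nonneg v)
    linarith
  rcases run (G := G) hR hσ hA hs hpos hτ rfl hp hG with ⟨b, hI⟩ | hO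
  · have htm : t ∈ l ++ [t] := by simp
    have hcr := hI.xs t htm
    refine ⟨b, ?_, hI.data⟩
    have := bound_end hσ hcr.1 hcr.2 (hI.t0 t htm).1 (hI.q t htm) (hI.c t htm) hI.bl
    linarith
  · exact hO.mono (by linarith [norm_nonneg (N t - F t)])

theorem funnel_vertex (hR : Rules σ v N F ap R) (hσ : σ ≠ 0) (hA : w σ v A < 0)
    (hs : 0 < w σ v (F s) ∧ w σ v (N s) < 0) (hpos : 0 < w σ (A - F s) (N s - F s))
    (hτ : 0 ≤ tau v (F s) (N s)) {l : List X} {t : X} (hp : AP R s l t)
    (hG : ∀ x ∈ l ++ [t], G x) {τ : ℝ} (ht : ap t = τ * v) (hτ1 : τ ≤ 1) :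
    Out σ A N F ap R G s (N s - A) (‖A‖ + ‖v‖) := by
  have htv : τ * ‖v‖ ≤ ‖v‖ := by
    have := mul_le_mul_of_nonneg_right hτ1 (norm_nonneg v)
    linarith
  have htc := hp.cross hR hs
  have hlt : tau v (F t) (N t) < τ := by
    have h1 := hR.pos t
    rw [ht] at h1
    have h2 : w σ (N t - F t) (τ * v - F t) = - w σ (τ * v - F t) (N t - F t) := by
      simp only [w, cr, Complex.sub_re, Complex.sub_im, Complex.mul_re, Complex.mul_im,
        Complex.ofReal_re, Complex.ofReal_im]; ring
    rw [h2, w_tau_left htc.1 htc.2] at h1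
    have hneg := w_edge_neg htc.1 htc.2
    by_contra hle
    push Not at hle
    have := mul_nonneg_of_nonpos_of_nonpos (sub_nonpos.2 hle) hneg.le
    linarith
  rcases run (G := G) hR hσ hA hs hpos hτ rfl hp (fun x hx => hG x (List.mem_append_left _ hx)) with
    ⟨b, hI⟩ | hO
  · have htm : t ∈ l ++ [t] := by simp
    have hcr := hI.xs t htm
    have hτt := (hI.t0 t htm).1
    rcases le_or_gt (w σ b (τ * v - A)) 0 with hq' | hq'
    · exact ⟨b, (bound_alpha hσ hτt hlt (hI.q t htm) hq' hA hI.bb).trans (by linarith), hI.data⟩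
    · have hbq : ∀ x ∈ l ++ [t], 0 < w σ (τ * v - A) (tau v (F x) (N x) * v - A) := by
        intro x hx
        rw [w_qq]
        refine mul_pos ?_ (by linarith)
        have := (hI.t0 x hx).2
        linarith
      have hbc : ∀ x ∈ l ++ [t], w σ (τ * v - A) (N x - A) < 0 := by
        intro x hx
        have hx' := hI.xs x hx
        exact new_c hq' (hI.c x hx) (hbq x hx) (near_tau hx'.1 hx'.2 (hI.lf x hx)) (hI.q x hx)
      refine ⟨τ * v - A, ?_, Or.inr ⟨l, t, hp, ?_, ?_⟩⟩
      · refine (norm_sub_le _ _).trans ?_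
        rw [norm_mul, Complex.norm_real, Real.norm_of_nonneg (by linarith)]
        linarith
      · intro y hy
        have hy' := hI.xs y hy
        exact ⟨hG y hy, far_pos hy'.1 hy'.2 (hbq y hy) (hbc y hy).le, hbc y hy⟩
      · rw [ht]; ring
  · refine hO.mono ?_
    have := mul_le_mul_of_nonneg_right hlt.le (norm_nonneg v)
    linarith

end Pool.Agent.Helper33.FN
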