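import Pool.Agent.Helper87.LS.Geo

/-!
# MP_e98778_an (full), G3 (crossing lemma): plane lemmas for the funnel

`w σ a b = σ cr a b` with `σ = ±1`: signed cross product, so that the two mirror images of the
funnel argument are one lemma.
-/

set_option autoImplicit false

open Pool.Agent.Helper87.LS

namespace Pool.Agent.Helper33.FN

/-- signed cross product -/
def w (σ : ℝ) (a b : ℂ) : ℝ := σ * cr a b

/-- the parameter at which the line `ℝ v` meets the line of the edge `(F, N)` -/
noncomputable def tau (v F N : ℂ) : ℝ := cr F (N - F) / cr v (N - F)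

variable {σ : ℝ}

theorem w_self (a : ℂ) : w σ a a = 0 := by simp only [w, cr]; ring

theorem pos_of_mul {a b : ℝ} (ha : 0 < a) (h : 0 < a * b) : 0 < b := by
  by_contra hb
  push Not at hb
  have := mul_nonpos_of_nonneg_of_nonpos ha.le hb
  linarith

theorem nonneg_of_mul {a b : ℝ} (ha : 0 < a) (h : 0 ≤ a * b) : 0 ≤ b := by
  by_contra hb
  push Not at hb
  have := mul_neg_of_pos_of_neg ha hb
  linarith

/-- step with common far end -/
theorem left_N {b x F N N' : ℂ} (h1 : w σ b (x - F) < 0) (h2 : w σ b (N - F) < 0)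
    (h3 : w σ b (N' - F) ≤ 0) (hp : 0 < w σ (N - F) (N' - F)) (hl : 0 ≤ w σ (x - F) (N - F)) :
    0 < w σ (x - F) (N' - F) := by
  have key : (-w σ b (N - F)) * w σ (x - F) (N' - F) =
      (-w σ b (x - F)) * w σ (N - F) (N' - F) + (-w σ b (N' - F)) * w σ (x - F) (N - F) := by
    simp only [w, cr, Complex.sub_re, Complex.sub_im]; ring
  have h4 := mul_pos (neg_pos.2 h1) hp
  have h5 := mul_nonneg (neg_nonneg.2 h3) hl
  exact pos_of_mul (neg_pos.2 h2) (by rw [key]; linarith)

/-- step with common near end -/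
theorem left_F {b x F F' N : ℂ} (h1 : 0 ≤ w σ b (x - N)) (h2 : 0 < w σ b (F - N))
    (h3 : 0 < w σ b (F' - N)) (hp : 0 < w σ (N - F) (F' - F)) (hl : 0 ≤ w σ (x - F) (N - F)) :
    0 ≤ w σ (x - F') (N - F') ∧
      (0 < w σ b (x - N) ∨ 0 < w σ (x - F) (N - F) → 0 < w σ (x - F') (N - F')) := by
  have key : w σ b (F - N) * w σ (x - F') (N - F') =
      w σ b (F' - N) * w σ (x - F) (N - F) + w σ b (x - N) * w σ (N - F) (F' - F) := by
    simp only [w, cr, Complex.sub_re, Complex.sub_im]; ring
  have h4 := mul_nonneg h3.le hl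
  have h5 := mul_nonneg h1 hp.le
  refine ⟨nonneg_of_mul h2 (by rw [key]; linarith), ?_⟩
  rintro (h | h)
  · have := mul_pos h hp
    exact pos_of_mul h2 (by rw [key]; linarith)
  · have := mul_pos h3 h
    exact pos_of_mul h2 (by rw [key]; linarith)

theorem tau_mul {v F N : ℂ} (h : cr v (N - F) ≠ 0) : tau v F N * cr v (N - F) = cr F (N - F) := by
  unfold tau; field_simp

/-- `p - A` for the crossing point `p` in terms of the ends of the edge -/
theorem w_tau {v F N : ℂ} (h : cr v (N - F) ≠ 0) (b A : ℂ) :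
    (w σ v F - w σ v N) * w σ b (tau v F N * v - A) =
      w σ v F * w σ b (N - A) - w σ v N * w σ b (F - A) := by
  have h1 := tau_mul h
  have h2 : w σ v F - w σ v N = -(σ * cr v (N - F)) := by
    simp only [w, cr, Complex.sub_re, Complex.sub_im]; ring
  have h3 : w σ b (tau v F N * v - A) = σ * (tau v F N * cr b v - cr b A) := by
    simp only [w, cr, Complex.sub_re, Complex.sub_im, Complex.mul_re, Complex.mul_im,
      Complex.ofReal_re, Complex.ofReal_im]; ring
  rw [h2, h3]
  have h4 : -(σ * cr v (N - F)) * (σ * (tau v F N * cr b v - cr b A)) =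
      -(σ ^ 2) * ((tau v F N * cr v (N - F)) * cr b v - cr b A * cr v (N - F)) := by ring
  rw [h4, h1]
  simp only [w, cr, Complex.sub_re, Complex.sub_im]; ring

theorem cr_ne {v F N : ℂ} (hF : 0 < w σ v F) (hN : w σ v N < 0) : cr v (N - F) ≠ 0 := by
  intro h
  have h2 : w σ v F - w σ v N = -(σ * cr v (N - F)) := by
    simp only [w, cr, Complex.sub_re, Complex.sub_im]; ring
  rw [h] at h2
  linarith

theorem w_tau_left {v F N : ℂ} (hF : 0 < w σ v F) (hN : w σ v N < 0) (τ : ℝ) :
    w σ (τ * v - F) (N - F) = (τ - tau v F N) * w σ v (N - F) := by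
  have h := cr_ne hF hN
  have h1 := tau_mul h
  have h2 : w σ (τ * v - F) (N - F) = σ * (τ * cr v (N - F) - cr F (N - F)) := by
    simp only [w, cr, Complex.sub_re, Complex.sub_im, Complex.mul_re, Complex.mul_im,
      Complex.ofReal_re, Complex.ofReal_im]; ring
  rw [h2, ← h1]
  unfold w; ring

theorem w_edge_neg {v F N : ℂ} (hF : 0 < w σ v F) (hN : w σ v N < 0) : w σ v (N - F) < 0 := by
  have h2 : w σ v (N - F) = w σ v N - w σ v F := by
    simp only [w, cr, Complex.sub_re, Complex.sub_im]; ring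
  rw [h2]; linarith

/-- if `p` is strictly beyond the ray and the near end is not, the far end is beyond it -/
theorem far_pos {v F N b A : ℂ} (hF : 0 < w σ v F) (hN : w σ v N < 0)
    (hq : 0 < w σ b (tau v F N * v - A)) (hn : w σ b (N - A) ≤ 0) : 0 < w σ b (F - A) := by
  have h := w_tau (σ := σ) (cr_ne hF hN) b A
  have h1 : 0 < (w σ v F - w σ v N) * w σ b (tau v F N * v - A) := mul_pos (by linarith) hq
  rw [h] at h1
  have h2 := mul_nonpos_of_nonneg_of_nonpos hF.le hn
  exact pos_of_mul (neg_pos.2 hN) (by linarith)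

/-- `A` left of the edge: the corner vector of the near end is to the right of `p - A` -/
theorem near_tau {v F N A : ℂ} (hF : 0 < w σ v F) (hN : w σ v N < 0)
    (hl : 0 < w σ (A - F) (N - F)) : 0 < w σ (N - A) (tau v F N * v - A) := by
  have h := w_tau (σ := σ) (cr_ne hF hN) (N - A) A
  have h1 : w σ (N - A) (F - A) = w σ (A - F) (N - F) := by
    simp only [w, cr, Complex.sub_re, Complex.sub_im]; ring
  rw [w_self, mul_zero, zero_sub, h1] at h
  refine pos_of_mul (a := w σ v F - w σ v N) (by linarith) ?_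
  rw [h]
  have := mul_pos (neg_pos.2 hN) hl
  linarith

theorem w_qq (v A : ℂ) (τ τ' : ℝ) :
    w σ (τ' * v - A) (τ * v - A) = (τ' - τ) * (-w σ v A) := by
  simp only [w, cr, Complex.sub_re, Complex.sub_im, Complex.mul_re, Complex.mul_im,
      Complex.ofReal_re, Complex.ofReal_im]; ring

/-- the new best direction is below the earlier crossing points -/
theorem new_q {b b' q q' : ℂ} (h1 : 0 < w σ b b') (h2 : 0 ≤ w σ q' q) (h3 : 0 < w σ b q)
    (h4 : 0 < w σ b' q') (h5 : 0 < w σ b q') : 0 < w σ b' q := by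
  have key : w σ b q' * w σ b' q = w σ b b' * w σ q' q + w σ b q * w σ b' q' := by
    simp only [w, cr]; ring
  have := mul_nonneg h1.le h2
  have := mul_pos h3 h4
  exact pos_of_mul h5 (by rw [key]; linarith)

/-- the earlier near ends are strictly on the other side of the new best direction -/
theorem new_c {b b' q c : ℂ} (h1 : 0 < w σ b b') (h2 : w σ b c ≤ 0) (h3 : 0 < w σ b' q)
    (h4 : 0 < w σ c q) (h5 : 0 < w σ b q) : w σ b' c < 0 := by
  have key : w σ b q * (-w σ b' c) = -(w σ b c) * w σ b' q + w σ b b' * w σ c q := by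
    simp only [w, cr]; ring
  have := mul_nonneg (neg_nonneg.2 h2) h3.le
  have := mul_pos h1 h4
  have := pos_of_mul h5 (b := -w σ b' c) (by rw [key]; linarith)
  linarith

/-- parallel vectors -/
theorem par {b z : ℂ} (hσ : σ ≠ 0) (hb : b ≠ 0) (h : w σ b z = 0) : ∃ r : ℝ, z = r * b := by
  have h0 : cr b z = 0 := by
    rcases mul_eq_zero.1 h with h | h
    · exact absurd h hσ
    · exact h
  have hn : b.re ^ 2 + b.im ^ 2 ≠ 0 := by
    intro h1
    have h2 : b.re = 0 := by nlinarith [sq_nonneg b.re, sq_nonneg b.im]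
    have h3 : b.im = 0 := by nlinarith [sq_nonneg b.re, sq_nonneg b.im]
    exact hb (Complex.ext h2 h3)
  unfold cr at h0
  refine ⟨(z.re * b.re + z.im * b.im) / (b.re ^ 2 + b.im ^ 2), ?_⟩
  apply Complex.ext
  · simp only [Complex.mul_re, Complex.ofReal_re, Complex.ofReal_im]
    rw [zero_mul, sub_zero, div_mul_eq_mul_div, eq_div_iff hn]
    linear_combination b.im * h0 * (-1)
  · simp only [Complex.mul_im, Complex.ofReal_re, Complex.ofReal_im]
    rw [zero_mul, add_zero, div_mul_eq_mul_div, eq_div_iff hn]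
    linear_combination b.re * h0

/-- length bound when the ray leaves through the base segment -/
theorem bound_alpha {b v A : ℂ} {τ τ' : ℝ} (hσ : σ ≠ 0) (hτ : 0 ≤ τ) (hττ : τ < τ')
    (h1 : 0 < w σ b (τ * v - A)) (h2 : w σ b (τ' * v - A) ≤ 0) (hA : w σ v A < 0)
    (hAb : w σ v (A + b) < 0) : ‖b‖ ≤ ‖A‖ + τ' * ‖v‖ := by
  set α := w σ b (τ * v - A) with hα
  set β := w σ b (τ' * v - A) with hβ
  have hb : b ≠ 0 := by
    rintro rfl
    simp [w, cr] at hα
    linarith
  have e1 : α - β = (τ' - τ) * w σ v b := by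
    rw [hα, hβ]
    simp only [w, cr, Complex.sub_re, Complex.sub_im, Complex.mul_re, Complex.mul_im,
      Complex.ofReal_re, Complex.ofReal_im]; ring
  have hvb : 0 < w σ v b := pos_of_mul (a := τ' - τ) (by linarith) (by rw [← e1]; linarith)
  have hab : 0 < α - β := by linarith
  set ρ := τ + (τ' - τ) * (α / (α - β)) with hρ
  have hfrac0 : 0 ≤ α / (α - β) := by positivity
  have hfrac1 : α / (α - β) ≤ 1 := by rw [div_le_one hab]; linarith
  have hρ0 : 0 ≤ ρ := by
    have := mul_nonneg (by linarith : 0 ≤ τ' - τ) hfrac0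
    rw [hρ]; linarith
  have hρ1 : ρ ≤ τ' := by
    have := mul_le_mul_of_nonneg_left hfrac1 (by linarith : 0 ≤ τ' - τ)
    rw [hρ]; linarith
  have hz : w σ b (ρ * v - A) = 0 := by
    have e2 : w σ b (ρ * v - A) = α - (ρ - τ) * w σ v b := by
      rw [hα]
      simp only [w, cr, Complex.sub_re, Complex.sub_im, Complex.mul_re, Complex.mul_im,
        Complex.ofReal_re, Complex.ofReal_im]; ring
    have e3 : (ρ - τ) * w σ v b = α := by
      rw [hρ]
      have : (τ + (τ' - τ) * (α / (α - β)) - τ) * w σ v b =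
          ((τ' - τ) * w σ v b) * (α / (α - β)) := by ring
      rw [this, ← e1]
      field_simp
    rw [e2, e3]; ring
  obtain ⟨r, hr⟩ := par hσ hb hz
  have e4 : w σ v A + r * w σ v b = 0 := by
    have : w σ v (ρ * v - A) = r * w σ v b := by
      rw [hr]
      simp only [w, cr, Complex.mul_re, Complex.mul_im, Complex.ofReal_re, Complex.ofReal_im]; ring
    have h5 : w σ v (ρ * v - A) = - w σ v A := by
      simp only [w, cr, Complex.sub_re, Complex.sub_im, Complex.mul_re, Complex.mul_im,
        Complex.ofReal_re, Complex.ofReal_im]; ring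
    linarith
  have e5 : w σ v (A + b) = w σ v A + w σ v b := by
    simp only [w, cr, Complex.add_re, Complex.add_im]; ring
  have hr1 : 1 ≤ r := by
    by_contra hlt
    push Not at hlt
    have := mul_lt_mul_of_pos_right hlt hvb
    linarith
  have hn : ‖(ρ : ℂ) * v - A‖ = r * ‖b‖ := by
    rw [hr, norm_mul, Complex.norm_real, Real.norm_of_nonneg (by linarith)]
  have hn2 : ‖(ρ : ℂ) * v - A‖ ≤ ρ * ‖v‖ + ‖A‖ := by
    refine (norm_sub_le _ _).trans ?_
    rw [norm_mul, Complex.norm_real, Real.norm_of_nonneg hρ0]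
  have h6 : ‖b‖ ≤ r * ‖b‖ := by
    have := mul_le_mul_of_nonneg_right hr1 (norm_nonneg b)
    linarith
  have h7 : ρ * ‖v‖ ≤ τ' * ‖v‖ := mul_le_mul_of_nonneg_right hρ1 (norm_nonneg v)
  linarith

/-- length bound at the last edge -/
theorem bound_end {b v A F N : ℂ} (hσ : σ ≠ 0) (hF : 0 < w σ v F) (hN : w σ v N < 0)
    (hτ : 0 ≤ tau v F N) (h1 : 0 < w σ b (tau v F N * v - A)) (h2 : w σ b (N - A) ≤ 0)
    (h3 : 0 ≤ w σ (A + b - F) (N - F)) :
    ‖b‖ ≤ ‖A‖ + tau v F N * ‖v‖ + ‖N - F‖ := by
  set τ := tau v F N with hτdef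
  set p : ℂ := τ * v with hp
  set α := w σ b (p - A) with hα
  set β := w σ b (N - A) with hβ
  have hfar : 0 < w σ b (F - A) := far_pos hF hN h1 h2
  have hb : b ≠ 0 := by
    rintro rfl
    simp [w, cr] at hα
    linarith
  have hab : 0 < α - β := by linarith
  set m := α / (α - β) with hm
  have hm0 : 0 ≤ m := by positivity
  have hm1 : m ≤ 1 := by rw [hm, div_le_one hab]; linarith
  set y : ℂ := p + m * (N - p) with hy
  have hz : w σ b (y - A) = 0 := by
    have e2 : w σ b (y - A) = α + m * (β - α) := by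
      rw [hα, hβ, hy]
      simp only [w, cr, Complex.sub_re, Complex.sub_im, Complex.mul_re, Complex.mul_im,
        Complex.add_re, Complex.add_im, Complex.ofReal_re, Complex.ofReal_im]; ring
    rw [e2, hm]
    have : α - β ≠ 0 := hab.ne'
    field_simp
    ring
  obtain ⟨r, hr⟩ := par hσ hb hz
  -- `y` is on the line of the edge
  have hpl : w σ (p - F) (N - F) = 0 := by
    rw [hp, w_tau_left hF hN]; ring
  have hyl : w σ (y - F) (N - F) = 0 := by
    have e3 : w σ (y - F) (N - F) = (1 - m) * w σ (p - F) (N - F) := by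
      rw [hy]
      simp only [w, cr, Complex.sub_re, Complex.sub_im, Complex.mul_re, Complex.mul_im,
        Complex.add_re, Complex.add_im, Complex.ofReal_re, Complex.ofReal_im]; ring
    rw [e3, hpl, mul_zero]
  have hbn : w σ b (N - F) < 0 := by
    have : w σ b (N - F) = w σ b (N - A) - w σ b (F - A) := by
      simp only [w, cr, Complex.sub_re, Complex.sub_im]; ring
    rw [this]; linarith
  have hr1 : 1 ≤ r := by
    have e4 : w σ (A + b - F) (N - F) = w σ (y - F) (N - F) + (1 - r) * w σ b (N - F) := by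
      have : y = A + r * b := by rw [← hr]; ring
      rw [this]
      simp only [w, cr, Complex.sub_re, Complex.sub_im, Complex.mul_re, Complex.mul_im,
        Complex.add_re, Complex.add_im, Complex.ofReal_re, Complex.ofReal_im]; ring
    rw [hyl, zero_add] at e4
    by_contra hlt
    push Not at hlt
    have := mul_neg_of_pos_of_neg (by linarith : 0 < 1 - r) hbn
    linarith
  have hn : ‖y - A‖ = r * ‖b‖ := by
    rw [hr, norm_mul, Complex.norm_real, Real.norm_of_nonneg (by linarith)]
  have h6 : ‖b‖ ≤ r * ‖b‖ := by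
    have := mul_le_mul_of_nonneg_right hr1 (norm_nonneg b)
    linarith
  -- `‖N - p‖ ≤ ‖N - F‖`
  have hNp : ‖N - p‖ ≤ ‖N - F‖ := by
    have hc := cr_ne hF hN
    set d : ℝ := w σ v F / (w σ v F - w σ v N) with hd
    have hd0 : 0 < w σ v F - w σ v N := by linarith
    have hd1 : 0 ≤ 1 - d := by
      rw [hd, sub_nonneg, div_le_one hd0]; linarith
    have hd2 : 0 ≤ d := by positivity
    have e5 : N - p = ((1 - d : ℝ) : ℂ) * (N - F) := by
      have e6 : w σ v (N - p - ((1 - d : ℝ) : ℂ) * (N - F)) = 0 := by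
        have : w σ v (N - p - ((1 - d : ℝ) : ℂ) * (N - F)) =
            w σ v N - (1 - d) * (w σ v N - w σ v F) := by
          rw [hp]
          simp only [w, cr, Complex.sub_re, Complex.sub_im, Complex.mul_re, Complex.mul_im,
            Complex.ofReal_re, Complex.ofReal_im]; ring
        rw [this, hd]
        field_simp
        ring
      have e7 : w σ (N - F) (N - p - ((1 - d : ℝ) : ℂ) * (N - F)) = 0 := by
        have : w σ (N - F) (N - p - ((1 - d : ℝ) : ℂ) * (N - F)) = w σ (p - F) (N - F) := by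
          simp only [w, cr, Complex.sub_re, Complex.sub_im, Complex.mul_re, Complex.mul_im,
            Complex.ofReal_re, Complex.ofReal_im]; ring
        rw [this, hpl]
      have h8 : cr v (N - p - ((1 - d : ℝ) : ℂ) * (N - F)) = 0 := by
        rcases mul_eq_zero.1 e6 with h | h
        · exact absurd h hσ
        · exact h
      have h9 : cr (N - F) (N - p - ((1 - d : ℝ) : ℂ) * (N - F)) = 0 := by
        rcases mul_eq_zero.1 e7 with h | h
        · exact absurd h hσ
        · exact h
      exact sub_eq_zero.1 (Surf.cr_solve46 hc h8 h9)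
    rw [e5, norm_mul, Complex.norm_real, Real.norm_of_nonneg hd1]
    have := mul_le_mul_of_nonneg_right (by linarith : 1 - d ≤ 1) (norm_nonneg (N - F))
    linarith
  have hpn : ‖p‖ = τ * ‖v‖ := by
    rw [hp, norm_mul, Complex.norm_real, Real.norm_of_nonneg hτ]
  have hyA : ‖y - A‖ ≤ ‖p‖ + ‖A‖ + ‖N - p‖ := by
    have e8 : y - A = (p - A) + m * (N - p) := by rw [hy]; ring
    rw [e8]
    refine (norm_add_le _ _).trans ?_
    have h10 : ‖(m : ℂ) * (N - p)‖ ≤ ‖N - p‖ := by
      rw [norm_mul, Complex.norm_real, Real.norm_of_nonneg hm0]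
      have := mul_le_mul_of_nonneg_right hm1 (norm_nonneg (N - p))
      linarith
    have := norm_sub_le p A
    linarith
  linarith

end Pool.Agent.Helper33.FN
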